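import Mathlib

open Finset Matrix Filter Topology

namespace H11.Parr

variable {N : ℕ} [NeZero N] {K : Type} [Field K]

/-- `m_i(x) = 2 x_{i-1} + x_{i+1}` (cyclic indices). -/
def mm (x : Fin N → Bool) (i : Fin N) : Fin 4 :=
  (if x (i - 1) then 2 else 0) + (if x (i + 1) then 1 else 0)

/-- The probability of the move `x → x^i`. -/
def rate (p : Fin 4 → K) (x : Fin N → Bool) (i : Fin N) : K :=
  (N : K)⁻¹ * if x i then 1 - p (mm x i) else p (mm x i)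

/-- The transition matrix. -/
def P (p : Fin 4 → K) : Matrix (Fin N → Bool) (Fin N → Bool) K := fun x y =>
  if y = x then 1 - ∑ i, rate p x i
  else ∑ i, if y = Function.update x i (!x i) then rate p x i else 0

/-- A probability distribution. -/
def IsProb {S : Type} [Fintype S] (ν : S → ℝ) : Prop := (∀ x, 0 ≤ ν x) ∧ ∑ x, ν x = 1

/-- The chain `A` is ergodic with stationary distribution `π`. -/
def Ergodic {S : Type} [Fintype S] [DecidableEq S] (A : Matrix S S ℝ) (π : S → ℝ) : Prop :=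
  (IsProb π ∧ π ᵥ* A = π) ∧ (∀ π', IsProb π' → π' ᵥ* A = π' → π' = π) ∧
    ∀ ν, IsProb ν → Tendsto (fun n : ℕ => ν ᵥ* A ^ n) atTop (𝓝 π)

/-- The mean profit `μ^N`. -/
def mu (p : Fin 4 → K) (π : (Fin N → Bool) → K) : K :=
  (N : K)⁻¹ * ∑ x, π x * ∑ i, (p (mm x i) - (1 - p (mm x i)))

section
variable {S : Type} [Fintype S] [DecidableEq S]

theorem contr (A : Matrix S S ℝ) (h1 : ∀ x, ∑ y, A x y = 1) (y0 : S) (ε : ℝ) (h0 : ∀ x y, 0 ≤ A x y)
    (he : ∀ x, ε ≤ A x y0) (d : S → ℝ) (hd : ∑ x, d x = 0) :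
    ∑ y, (d ᵥ* A) y = 0 ∧ ∑ y, |(d ᵥ* A) y| ≤ (1 - ε) * ∑ x, |d x| := by
  constructor
  · simp only [vecMul, dotProduct]
    rw [sum_comm]
    simp only [← mul_sum, h1, mul_one, hd]
  · have e : ∀ y, (d ᵥ* A) y = ∑ x, d x * (A x y - if y = y0 then ε else 0) := by
      intro y
      simp only [vecMul, dotProduct, mul_sub, sum_sub_distrib, ← sum_mul, hd, zero_mul, sub_zero]
    simp only [e]
    refine (sum_le_sum fun y _ => abs_sum_le_sum_abs _ _).trans (le_of_eq ?_)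
    rw [sum_comm, mul_sum]
    refine sum_congr rfl fun x _ => ?_
    have : ∀ y, |A x y - if y = y0 then ε else 0| = A x y - if y = y0 then ε else 0 := by
      intro y
      refine abs_of_nonneg ?_
      split_ifs with h
      · rw [h]; linarith [he x]
      · simpa using h0 x y
    simp only [abs_mul, this, ← mul_sum, sum_sub_distrib, h1]
    simp [mul_comm]

theorem erg (A : Matrix S S ℝ) (h1 : ∀ x, ∑ y, A x y = 1) (h0 : ∀ x y, 0 ≤ A x y) (y0 : S)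
    (r : S → ℕ) (hr : ∀ x, ∃ a, 0 < A x a ∧ r a ≤ r x - 1) (hy : ∀ x, r x = 0 → x = y0)
    (π : S → ℝ) (hπ : IsProb π) (hs : π ᵥ* A = π) : Ergodic A π := by
  have hA : A ∈ rowStochastic ℝ S := mem_rowStochastic_iff_sum.2 ⟨h0, h1⟩
  have hk : ∀ k, (∀ x y, 0 ≤ (A ^ k) x y) ∧ ∀ x, ∑ y, (A ^ k) x y = 1 := fun k =>
    mem_rowStochastic_iff_sum.1 (pow_mem hA k)
  have pos : ∀ k x, r x ≤ k → 0 < (A ^ k) x y0 := by
    intro k
    induction k with
    | zero => intro x h; simp [hy x (by omega)]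
    | succ k ih =>
      intro x hx
      obtain ⟨a, ha, h⟩ := hr x
      rw [pow_succ', mul_apply]
      exact sum_pos' (fun b _ => mul_nonneg (h0 _ _) ((hk k).1 _ _))
        ⟨a, mem_univ _, mul_pos ha (ih a (by omega))⟩
  set k := univ.sup r + 1
  obtain ⟨x0, -, hx0⟩ := exists_min_image univ (fun x => (A ^ k) x y0) ⟨y0, mem_univ _⟩
  have e0 := pos k x0 ((le_sup (mem_univ x0)).trans (Nat.le_succ _))
  have e1 : (A ^ k) x0 y0 ≤ 1 := le_one_of_mem_rowStochastic (pow_mem hA k)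
  set ε := (A ^ k) x0 y0
  have fix : ∀ π' : S → ℝ, π' ᵥ* A = π' → ∀ n : ℕ, π' ᵥ* A ^ n = π' := by
    intro π' h n
    induction n with
    | zero => simp
    | succ n ih => rw [pow_succ, ← vecMul_vecMul, ih, h]
  have conv : ∀ ν, IsProb ν → Tendsto (fun n : ℕ => ν ᵥ* A ^ n) atTop (𝓝 π) := by
    intro ν hν
    have hd : ∑ x, (ν - π) x = 0 := by simp [hν.2, hπ.2]
    have b1 : ∀ j : ℕ, ∑ y, ((ν - π) ᵥ* (A ^ k) ^ j) y = 0 ∧
        ∑ y, |((ν - π) ᵥ* (A ^ k) ^ j) y| ≤ (1 - ε) ^ j * ∑ x, |(ν - π) x| := by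
      intro j
      induction j with
      | zero => simpa using hd
      | succ j ih =>
        have := contr (A ^ k) (hk k).2 y0 ε (hk k).1 (fun x => hx0 x (mem_univ _)) _ ih.1
        rw [pow_succ, ← vecMul_vecMul, pow_succ' (1 - ε), mul_assoc]
        exact ⟨this.1, this.2.trans (mul_le_mul_of_nonneg_left ih.2 (by linarith))⟩
    have b2 : ∀ (n : ℕ) y, |(ν ᵥ* A ^ n) y - π y| ≤ (1 - ε) ^ (n / k) * ∑ x, |(ν - π) x| := by
      intro n y
      have := (contr (A ^ (n % k)) (hk _).2 y0 0 (hk _).1 (fun x => (hk _).1 _ _) _ (b1 (n / k)).1).2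
      rw [vecMul_vecMul, ← pow_mul, ← pow_add, Nat.div_add_mod, sub_vecMul (A ^ n) ν π, fix π hs,
        sub_zero, one_mul] at this
      exact (single_le_sum (f := fun y => |(ν ᵥ* A ^ n - π) y|) (fun _ _ => abs_nonneg _)
        (mem_univ y)).trans (this.trans (by rw [pow_mul]; exact (b1 _).2))
    refine tendsto_pi_nhds.2 fun y => tendsto_iff_norm_sub_tendsto_zero.2
      (squeeze_zero (fun _ => norm_nonneg _) (b2 · y) ?_)
    simpa using ((tendsto_pow_atTop_nhds_zero_of_lt_one (by linarith) (by linarith : 1 - ε < 1)).comp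
      (Nat.tendsto_div_const_atTop (Nat.succ_ne_zero _))).mul_const (∑ x, |(ν - π) x|)
  refine ⟨⟨hπ, hs⟩, fun π' h h' => ?_, conv⟩
  have := conv π' h
  simp only [fix π' h'] at this
  exact tendsto_nhds_unique tendsto_const_nhds this
end

def ix (x : Fin 4 → Bool) : ℕ := (x 0).toNat + 2 * (x 1).toNat + 4 * (x 2).toNat + 8 * (x 3).toNat

def rk (x : Fin 4 → Bool) : ℕ := [2, 1, 3, 2, 1, 0, 2, 1, 3, 2, 4, 5, 2, 1, 5, 2].getD (ix x) 0

theorem cast_P (p : Fin 4 → ℚ) (x y : Fin N → Bool) :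
    P (fun j => (p j : ℝ)) x y = (P p x y : ℚ) := by
  simp only [P, rate]
  split_ifs <;> simp [apply_ite (Rat.cast : ℚ → ℝ)]

theorem erg' (p : Fin 4 → ℚ) (π : (Fin 4 → Bool) → ℚ)
    (h : (∀ x : Fin 4 → Bool, ∑ y, P p x y = 1) ∧ (∀ x y : Fin 4 → Bool, 0 ≤ P p x y) ∧
      (∀ x, ∃ a, 0 < P p x a ∧ rk a ≤ rk x - 1) ∧ (∀ x, 0 ≤ π x) ∧ ∑ x, π x = 1 ∧
      ∀ y, ∑ x, π x * P p x y = π y) :
    Ergodic (P fun j => (p j : ℝ)) fun x => (π x : ℝ) := by
  obtain ⟨h1, h2, h3, h4, h5, h6⟩ := h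
  refine erg _ (fun x => ?_) (fun x y => ?_) ![true, false, true, false] rk (fun x => ?_)
    (by decide) _ ⟨fun x => ?_, ?_⟩ (funext fun y => ?_)
  · simp only [cast_P]; exact_mod_cast h1 x
  · simp only [cast_P]; exact_mod_cast h2 x y
  · simp only [cast_P]; exact_mod_cast h3 x
  · exact Rat.cast_nonneg.2 (h4 x)
  · simp only []; exact_mod_cast h5
  · simp only [vecMul, dotProduct, cast_P]; exact_mod_cast h6 y

theorem cast_mu (p : Fin 4 → ℚ) (π : (Fin N → Bool) → ℚ) :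
    mu (fun j => (p j : ℝ)) (fun x => (π x : ℝ)) = (mu p π : ℚ) := by
  simp [mu]

def π1 (x : Fin 4 → Bool) : ℚ :=
  [1, 2, 2, 2, 2, 16, 2, 4, 2, 2, 16, 4, 2, 4, 4, 0].getD (ix x) 0 / 65

def π2 (x : Fin 4 → Bool) : ℚ :=
  [1, 3, 3, 3, 3, 33, 3, 6, 3, 3, 33, 6, 3, 6, 6, 0].getD (ix x) 0 / 115

end H11.Parr

open H11.Parr

theorem Pool.Agent.Results.MP_313e16_pr.Counter.result :
    ∃ (p p' : Fin 4 → ℝ) (π π' : (Fin 4 → Bool) → ℝ),
      (∀ j, p j ∈ Set.Icc (0 : ℝ) 1 ∧ p' j ∈ Set.Icc (0 : ℝ) 1) ∧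
      p 0 < p' 0 ∧ (∀ j, j ≠ 0 → p j = p' j) ∧
      Ergodic (P p) π ∧ Ergodic (P p') π' ∧ mu p' π' < mu p π := by
  refine ⟨fun j => ((![2 / 3, 1, 1, 0] j : ℚ) : ℝ), fun j => ((![3 / 4, 1, 1, 0] j : ℚ) : ℝ),
    _, _, fun j => ?_, ?_, fun j hj => ?_, erg' _ π1 (by decide +kernel),
    erg' _ π2 (by decide +kernel), ?_⟩
  · fin_cases j <;> simp <;> norm_num
  · simp; norm_num
  · fin_cases j <;> simp at hj ⊢
  · rw [cast_mu, cast_mu, Rat.cast_lt]
    decide +kernel
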